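import Pool.Agent.H88.RO.Strings

set_option autoImplicit false

/-! # Enumeration of binary strings and exhaustive search -/

namespace Pool.Agent.H88.RO

open Tr

variable {O : List Bool → Bool}

/-- the successor in the length-first enumeration of binary strings -/
def sc : List Bool → List Bool
  | [] => [false]
  | false :: w => true :: w
  | true :: w => false :: sc w

/-- the index of a string in this enumeration -/
def sval : List Bool → ℕ
  | [] => 0
  | b :: w => 2 * sval w + (if b then 2 else 1)

theorem sval_sc (w : List Bool) : sval (sc w) = sval w + 1 := by
  induction w with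
  | nil => rfl
  | cons b w ih =>
    cases b with
    | false => simp [sc, sval]
    | true => simp only [sc, sval, ih]; simp; ring

theorem sval_injective : Function.Injective sval := by
  intro w
  induction w with
  | nil =>
    intro w' h
    cases w' with
    | nil => rfl
    | cons b w' => cases b <;> simp [sval] at h
  | cons b w ih =>
    intro w' h
    cases w' with
    | nil => cases b <;> simp [sval] at h
    | cons b' w' =>
      cases b <;> cases b' <;> simp only [sval] at h
      · have : sval w = sval w' := by simpa using h
        rw [ih this]
      · simp at h; omega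
      · simp at h; omega
      · have : sval w = sval w' := by simpa using h
        rw [ih this]

theorem sval_lt (w : List Bool) : sval w + 1 < 2 ^ (w.length + 1) := by
  induction w with
  | nil => simp [sval]
  | cons b w ih =>
    have : sval (b :: w) ≤ 2 * sval w + 2 := by cases b <;> simp [sval]
    rw [List.length_cons, pow_succ]
    omega

theorem sval_iter (n : ℕ) : sval (sc^[n] []) = n := by
  induction n with
  | zero => rfl
  | succ n ih => rw [Function.iterate_succ_apply', sval_sc, ih]

theorem sc_iter_sval (w : List Bool) : sc^[sval w] [] = w :=
  sval_injective (sval_iter _)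

/-- one step of the successor program; states are `node mode (node rest acc)` -/
def sstep (s : Tr) : Tr :=
  if fst (snd s) = leaf then s
  else if fst s = leaf then
    (if fst (fst (snd s)) = leaf then node tt (node (snd (fst (snd s))) (node tt (snd (snd s))))
      else node leaf (node (snd (fst (snd s))) (node leaf (snd (snd s)))))
  else node tt (node (snd (fst (snd s))) (node (fst (fst (snd s))) (snd (snd s))))

/-- last step of the successor program -/
def sfin (s : Tr) : Tr := if fst s = leaf then node leaf (snd (snd s)) else snd (snd s)

/-- the successor program -/
def succT (v : Tr) : Tr := revN (sfin (sstep^[len v] (node leaf (node v leaf))))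

theorem size_sstep (s : Tr) : size (sstep s) ≤ size s + 10 := by
  have a1 := size_snd_le (fst (snd s))
  have a2 : size (fst s) + size (fst (snd s)) + size (snd (snd s)) ≤ size s + 2 := by
    cases s with
    | leaf => simp [size]
    | node p q =>
      cases q with
      | leaf => simp [size]
      | node r t => simp [size]; omega
  have a3 : size (fst (fst (snd s))) + size (snd (fst (snd s))) ≤ size (fst (snd s)) + 1 := by
    cases fst (snd s) with
    | leaf => simp [size]
    | node p q => simp [size]; omega
  have a4 := size_pos (fst s)
  unfold sstep
  split_ifs
  · omega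
  · simp only [size, tt]; omega
  · simp only [size]; omega
  · simp only [size, tt]; omega

theorem FP.succT' {F : Tr → Tr} (hF : FP O F) : FP O (fun v => succT (F v)) := by
  have hd : FP O sstep := by
    unfold sstep tt
    (repeat (first | with_reducible exact FP.id' | assumption | with_reducible apply FP.fst' | with_reducible apply FP.snd' | with_reducible apply FP.node' | with_reducible apply FP.query' | with_reducible apply FP.ite' | with_reducible exact FP.const' _))
  have hf : FP O sfin := by
    unfold sfin
    (repeat (first | with_reducible exact FP.id' | assumption | with_reducible apply FP.fst' | with_reducible apply FP.snd' | with_reducible apply FP.node' | with_reducible apply FP.query' | with_reducible apply FP.ite' | with_reducible exact FP.const' _))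
  exact FP.revN' (FP.comp' hf (FP.iterate_add hd hF (FP.node' FP.leaf' (FP.node' hF FP.leaf')) 10
    size_sstep))

theorem sstep_iter_copy (w : List Bool) : ∀ acc, sstep^[w.length] (node tt (node (enc w) (enc acc))) =
    node tt (node leaf (enc (w.reverse ++ acc))) := by
  induction w with
  | nil => intro acc; rfl
  | cons b w ih =>
    intro acc
    rw [List.length_cons, Function.iterate_succ_apply]
    have : sstep (node tt (node (enc (b :: w)) (enc acc))) =
        node tt (node (enc w) (enc (b :: acc))) := by
      cases b <;> simp [sstep, enc]
    rw [this, ih]
    simp

theorem sstep_iter (w : List Bool) : ∀ acc,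
    sfin (sstep^[w.length] (node leaf (node (enc w) (enc acc)))) =
      enc ((sc w).reverse ++ acc) := by
  induction w with
  | nil => intro acc; simp [sfin, sc, enc, bit]
  | cons b w ih =>
    intro acc
    rw [List.length_cons, Function.iterate_succ_apply]
    cases b with
    | false =>
      have : sstep (node leaf (node (enc (false :: w)) (enc acc))) =
          node tt (node (enc w) (enc (true :: acc))) := by
        simp [sstep, enc, bit, tt]
      rw [this, sstep_iter_copy]
      simp [sfin, sc]
    | true =>
      have : sstep (node leaf (node (enc (true :: w)) (enc acc))) =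
          node leaf (node (enc w) (enc (false :: acc))) := by
        simp [sstep, enc, bit]
      rw [this, ih]
      simp [sc]

@[simp] theorem succT_enc (w : List Bool) : succT (enc w) = enc (sc w) := by
  have h := sstep_iter w []
  simp only [enc, List.append_nil] at h
  rw [succT, len_enc, h, revN_eq, dec_enc, List.reverse_reverse]

theorem len_sstep (s : Tr) : len (snd (snd (sstep s))) + len (fst (snd (sstep s))) ≤
    len (snd (snd s)) + len (fst (snd s)) := by
  unfold sstep
  split_ifs with h1 h2 h3
  · omega
  all_goals
    simp only [snd_node, fst_node, len, len_snd]
    have : len (fst (snd s)) ≠ 0 := fun h => h1 (len_eq_zero.mp h)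
    omega

theorem len_revN (v : Tr) : len (revN v) = len v := by
  rw [revN_eq, len_enc, List.length_reverse, length_dec]

theorem len_succT_le (v : Tr) : len (succT v) ≤ len v + 1 := by
  have h : ∀ n s, len (snd (snd (sstep^[n] s))) + len (fst (snd (sstep^[n] s))) ≤
      len (snd (snd s)) + len (fst (snd s)) := by
    intro n
    induction n with
    | zero => intro s; exact le_rfl
    | succ n ih =>
      intro s
      rw [Function.iterate_succ_apply']
      exact (len_sstep _).trans (ih s)
  have h1 := h (len v) (node leaf (node v leaf))
  simp only [snd_node, fst_node, len] at h1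
  rw [succT, len_revN, sfin]
  split_ifs
  · simp only [len]; omega
  · omega

theorem size_succT_le (v : Tr) : size (succT v) ≤ 4 * len v + 5 := by
  have h1 := len_succT_le v
  have h2 : size (succT v) ≤ 4 * len (succT v) + 1 := by
    unfold succT
    rw [revN_eq, len_enc]
    exact size_enc_le _
  omega

/-! ### exhaustive search -/

/-- one step of the search; states are `node p (node z found)` -/
def srstep (F : Tr → Tr) (s : Tr) : Tr :=
  node (fst s) (node (succT (fst (snd s)))
    (if F (node (fst s) (fst (snd s))) = leaf then snd (snd s) else tt))

/-- search through the first `len N` strings for one satisfying the test `F (node p _)` -/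
def srch (F : Tr → Tr) (N p : Tr) : Tr :=
  snd (snd ((srstep F)^[len N] (node p (node leaf leaf))))

theorem FP.srch' {F G N : Tr → Tr} (hF : FP O F) (hN : FP O N) (hG : FP O G) :
    FP O (fun v => srch F (N v) (G v)) := by
  have hd : FP O (srstep F) := by
    unfold srstep
    have h1 : FP O (fun s => F (node (fst s) (fst (snd s)))) :=
      FP.comp' hF (FP.node' (FP.fst' FP.id') (FP.fst' (FP.snd' FP.id')))
    exact FP.node' (FP.fst' FP.id') (FP.node' (FP.succT' (FP.fst' (FP.snd' FP.id')))
      (FP.ite' h1 (FP.snd' (FP.snd' FP.id')) (FP.const' _)))
  refine FP.snd' (FP.snd' (FP.iterate' hd hN (FP.node' hG (FP.node' FP.leaf' FP.leaf'))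
    ⟨20 * Polynomial.X + 20, fun n x i hi => ?_⟩))
  simp only [Polynomial.eval_add, Polynomial.eval_mul, Polynomial.eval_ofNat, Polynomial.eval_X]
  have key : ∀ i, fst ((srstep F)^[i] x) = fst x ∧
      len (fst (snd ((srstep F)^[i] x))) ≤ len (fst (snd x)) + i ∧
      size (fst (snd ((srstep F)^[i] x))) ≤ size x + 4 * (len (fst (snd x)) + i) + 5 ∧
      size (snd (snd ((srstep F)^[i] x))) ≤ size x + 3 ∧
      size ((srstep F)^[i] x) ≤ 3 * size x + 4 * (len (fst (snd x)) + i) + 20 := by
    intro i
    induction i with
    | zero =>
      have a1 := size_snd_le x
      have a2 := size_fst_le (snd x)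
      have a3 := size_snd_le (snd x)
      simp only [Function.iterate_zero, id]
      refine ⟨trivial, by omega, by omega, by omega, by omega⟩
    | succ i ih =>
      obtain ⟨h1, h2, h3, h4, h5⟩ := ih
      rw [Function.iterate_succ_apply']
      have b1 := len_succT_le (fst (snd ((srstep F)^[i] x)))
      have b2 := size_succT_le (fst (snd ((srstep F)^[i] x)))
      have b3 := size_fst_le x
      have b4 := size_pos x
      have hz : size (snd (snd (srstep F ((srstep F)^[i] x)))) ≤ size x + 3 := by
        simp only [srstep, snd_node]
        split_ifs
        · exact h4
        · simp only [tt, size]; omega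
      refine ⟨?_, ?_, ?_, hz, ?_⟩
      · simp only [srstep, fst_node, h1]
      · simp only [srstep, fst_node, snd_node]; omega
      · simp only [srstep, fst_node, snd_node]; omega
      · simp only [srstep, snd_node] at hz
        simp only [srstep, size, h1] at hz ⊢
        omega
  have := (key i).2.2.2.2
  have c1 := len_le_size n
  have c2 := len_le_size (fst (snd x))
  have c3 := size_fst_le (snd x)
  have c4 := size_snd_le x
  omega

theorem srch_iter (F : Tr → Tr) (n : ℕ) (p : Tr) :
    ∃ r, (srstep F)^[n] (node p (node leaf leaf)) = node p (node (enc (sc^[n] [])) r) ∧
      (r ≠ leaf ↔ ∃ i < n, F (node p (enc (sc^[i] []))) ≠ leaf) := by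
  induction n with
  | zero => exact ⟨leaf, rfl, by simp⟩
  | succ n ih =>
    obtain ⟨r, h1, h2⟩ := ih
    rw [Function.iterate_succ_apply', h1]
    refine ⟨if F (node p (enc (sc^[n] []))) = leaf then r else tt, ?_, ?_⟩
    · simp only [srstep, fst_node, snd_node, succT_enc, Function.iterate_succ_apply']
    · split_ifs with h
      · rw [h2]
        constructor
        · rintro ⟨i, hi, h3⟩; exact ⟨i, by omega, h3⟩
        · rintro ⟨i, hi, h3⟩
          rcases Nat.lt_or_ge i n with h4 | h4
          · exact ⟨i, h4, h3⟩
          · have : i = n := by omega
            subst this
            exact absurd h h3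
      · simp only [ne_eq, tt_ne, not_false_eq_true, true_iff]
        exact ⟨n, by omega, h⟩

theorem srch_spec (F : Tr → Tr) (N p : Tr) :
    srch F N p ≠ leaf ↔ ∃ i < len N, F (node p (enc (sc^[i] []))) ≠ leaf := by
  obtain ⟨r, h1, h2⟩ := srch_iter F (len N) p
  rw [srch, h1, snd_node, snd_node, h2]

end Pool.Agent.H88.RO
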