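import Pool.Agent.H88.Lazy.Rel

set_option autoImplicit false

/-! # No total NP search problem is complete under reductions of a fixed polynomial degree -/

namespace Pool.Agent.H88.RO

open Tr

variable {O : List Bool → Bool}

/-- A weak form of many-one reducibility, by programs running in time `τ`, a function of the
length of the input.  The first program turns the instance `x` of `S` into an instance `s` of
`T`; the second one turns `x` and any `T`-solution `y` of `s` into a string whose **first bit**
agrees with the first bit of some `S`-solution of `x`.  (In the usual notion the string itself is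
an `S`-solution of `x`.) -/
def TFNP.FirstBitWithin (τ : ℕ → ℕ) (S T : TFNP O) : Prop :=
  ∃ cf cg : Prog, ∀ x, ∃ s, (∃ t ≤ τ x.length, Eval O cf (enc x) (enc s) t) ∧
    ∀ y, T.IsSol s y → ∃ w, (∃ t ≤ τ (x.length + y.length),
      Eval O cg (node (enc x) (enc y)) (enc w) t) ∧ ∃ z, S.IsSol x z ∧ w.head? = z.head?

namespace Lazy

theorem parse_ones (m : ℕ) (v : List Bool) :
    parse (List.replicate m true ++ false :: v) = some (m, v) := by
  induction m with
  | zero => simp [parse]
  | succ m ih => simp [List.replicate_succ, parse, ih]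

theorem parse_some {x : List Bool} {m : ℕ} {v : List Bool} (h : parse x = some (m, v)) :
    x = List.replicate m true ++ false :: v := by
  induction x generalizing m with
  | nil => simp [parse] at h
  | cons b x ih =>
    cases b with
    | false =>
      simp only [parse, Option.some.injEq, Prod.mk.injEq] at h
      obtain ⟨rfl, rfl⟩ := h
      simp
    | true =>
      simp only [parse, Option.map_eq_some_iff, Prod.mk.injEq] at h
      obtain ⟨⟨m', v'⟩, h1, h2, h3⟩ := h
      simp only at h2 h3
      subst h2 h3
      rw [ih h1]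
      simp [List.replicate_succ]

theorem inst_length (u : List Bool) (a m : ℕ) : (inst u a m).length = m + a + u.length + 2 := by
  simp [inst]; ring

theorem rf_length (k : ℕ) (u x : List Bool) :
    (rf O k u x).length ≤ (x.length + 1) ^ (k + 1) := by
  unfold rf
  rw [length_dec]
  have h1 := len_le_size (snd (U O (fst (decode u)) (enc x) ((x.length + 1) ^ (k + 1))))
  have h2 : 1 ≤ (x.length + 1) ^ (k + 1) := Nat.one_le_pow _ _ (by omega)
  rcases U_cases (O := O) (fst (decode u)) (enc x) ((x.length + 1) ^ (k + 1)) with h | ⟨w, h⟩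
  · rw [h]; simp [len]
  · have h3 := size_of_U h
    rw [h] at h1 ⊢
    rw [snd_node] at h1 ⊢
    omega

/-- the polynomial in the exponent of the length of the chain -/
noncomputable def QQ (p : Polynomial ℕ) (k : ℕ) : Polynomial ℕ :=
  p.comp ((Polynomial.X + 1) ^ (k + 1)) + Polynomial.X + 1

theorem QQ_eval (p : Polynomial ℕ) (k n : ℕ) :
    (QQ p k).eval n = p.eval ((n + 1) ^ (k + 1)) + n + 1 := by
  simp [QQ]

/-- the problem defeating all reductions to `T` of degree `k` -/
noncomputable def SS (T : TFNP O) (k : ℕ) : TFNP O where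
  R := RLb O T.R T.p (QQ T.p k) k
  p := T.p.comp ((Polynomial.X + 2) ^ (k + 1)) + 1
  polyTime := polyTime_RLb T.polyTime _ _ _
  total := by
    intro x
    simp only [RLb_eq, Polynomial.eval_add, Polynomial.eval_comp, Polynomial.eval_pow,
      Polynomial.eval_X, Polynomial.eval_one, Polynomial.eval_ofNat]
    rcases hx : parse x with _ | ⟨m, v⟩
    · refine ⟨[], by simp, ?_⟩
      intro m v a u h
      rw [hx] at h; cases h
    · rcases hv : parse v with _ | ⟨a, u⟩
      · refine ⟨[], by simp, ?_⟩
        intro m' v' a u h1 h2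
        rw [hx, Option.some.injEq, Prod.mk.injEq] at h1
        rw [← h1.2, hv] at h2; cases h2
      · have hxe : x = inst u a m := by rw [parse_some hx, parse_some hv, inst]
        have main : ∃ b z, (b :: z).length ≤ T.p.eval ((x.length + 2) ^ (k + 1)) + 1 ∧
            ((2 ^ (QQ T.p k).eval (inst u a a).length ≤ m ∧
              (b = true ↔ ¬ Yes O T.R T.p k u (inst u a a) m)) ∨
            (m < 2 ^ (QQ T.p k).eval (inst u a a).length ∧
              Sol T.R T.p (rf O k u (inst u a (m + 1))) z ∧
              b = rg O k u (inst u a (m + 1)) z)) := by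
          rcases Nat.lt_or_ge m (2 ^ (QQ T.p k).eval (inst u a a).length) with h | h
          · obtain ⟨z, hz1, hz2⟩ := T.total (rf O k u (inst u a (m + 1)))
            refine ⟨rg O k u (inst u a (m + 1)) z, z, ?_, Or.inr ⟨h, ⟨hz1, hz2⟩, rfl⟩⟩
            rw [List.length_cons]
            have h1 := rf_length (O := O) k u (inst u a (m + 1))
            have h2 : (inst u a (m + 1)).length + 1 = x.length + 2 := by
              rw [hxe, inst_length, inst_length]; ring
            rw [h2] at h1
            have := poly_mono T.p h1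
            omega
          · by_cases hY : Yes O T.R T.p k u (inst u a a) m
            · exact ⟨false, [], by simp, Or.inl ⟨h, by simp [hY]⟩⟩
            · exact ⟨true, [], by simp, Or.inl ⟨h, by simp [hY]⟩⟩
        obtain ⟨b, z, h1, h2⟩ := main
        refine ⟨b :: z, h1, ?_⟩
        intro m' v' a' u' e1 e2
        rw [hx, Option.some.injEq, Prod.mk.injEq] at e1
        obtain ⟨rfl, rfl⟩ := e1
        rw [hv, Option.some.injEq, Prod.mk.injEq] at e2
        obtain ⟨rfl, rfl⟩ := e2
        exact ⟨b, z, rfl, h2⟩

theorem clock_ok (W C k n : ℕ) (h : 2 * C * W + 10 ≤ n + 1) :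
    W * (C * n ^ k + C) + 10 ≤ (n + 1) ^ (k + 1) := by
  have h1 : 1 ≤ (n + 1) ^ k := Nat.one_le_pow _ _ (by omega)
  have h2 : n ^ k ≤ (n + 1) ^ k := Nat.pow_le_pow_left (by omega) _
  calc W * (C * n ^ k + C) + 10 ≤ W * (C * (n + 1) ^ k + C * (n + 1) ^ k) + 10 * (n + 1) ^ k := by
        have h3 : C * n ^ k ≤ C * (n + 1) ^ k := Nat.mul_le_mul_left _ h2
        have h4 : C ≤ C * (n + 1) ^ k := Nat.le_mul_of_pos_right _ (by omega)
        have h5 : W * (C * n ^ k + C) ≤ W * (C * (n + 1) ^ k + C * (n + 1) ^ k) :=
          Nat.mul_le_mul_left _ (by omega)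
        omega
    _ = (2 * C * W + 10) * (n + 1) ^ k := by ring
    _ ≤ (n + 1) * (n + 1) ^ k := Nat.mul_le_mul_right _ h
    _ = (n + 1) ^ (k + 1) := by rw [pow_succ']

theorem no_reduction (T : TFNP O) (k C : ℕ) :
    ¬ (SS T k).FirstBitWithin (fun n => C * n ^ k + C) T := by
  rintro ⟨cf, cg, hred⟩
  obtain ⟨u, hdu⟩ : ∃ u, decode u = node (code cf) (code cg) :=
    ⟨_, decode_pad 0 (node (code cf) (code cg))⟩
  set a := 2 * C * (size (code cf) + size (code cg) + 10) + 10 with ha
  -- what the reduction does at the instances of the chain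
  have hrun : ∀ m, a ≤ m → ∀ y, Sol T.R T.p (rf O k u (inst u a m)) y →
      ∃ z, RL O T.R T.p (QQ T.p k) k (inst u a m) (rg O k u (inst u a m) y :: z) := by
    intro m hm y hy
    have hlen := inst_length u a m
    obtain ⟨s, ⟨t, ht, he⟩, hs⟩ := hred (inst u a m)
    have hrf : rf O k u (inst u a m) = s := by
      have h1 := U_eq he (K := ((inst u a m).length + 1) ^ (k + 1)) (by
        refine le_trans ?_ (clock_ok (size (code cf) + 10) C k (inst u a m).length ?_)
        · exact Nat.add_le_add_right (Nat.mul_le_mul_left _ ht) _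
        · have h2 : 2 * C * (size (code cf) + 10) ≤ 2 * C * (size (code cf) + size (code cg) + 10) :=
            Nat.mul_le_mul_left _ (by omega)
          omega)
      rw [rf, hdu, fst_node, h1, snd_node, dec_enc]
    rw [hrf] at hy
    obtain ⟨w, ⟨t', ht', he'⟩, z, hz1, hz2⟩ := hs y ⟨hy.1, hy.2⟩
    have hz3 : RL O T.R T.p (QQ T.p k) k (inst u a m) z := RLb_eq.mp hz1.2
    obtain ⟨b, z', rfl, hz4⟩ := hz3 m (List.replicate a true ++ false :: u) a u
      (parse_ones _ _) (parse_ones _ _)
    have hrg : rg O k u (inst u a m) y = b := by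
      have h1 := U_eq he' (K := ((inst u a m).length + y.length + 1) ^ (k + 1)) (by
        refine le_trans ?_ (clock_ok (size (code cg) + 10) C k ((inst u a m).length + y.length) ?_)
        · exact Nat.add_le_add_right (Nat.mul_le_mul_left _ ht') _
        · have h2 : 2 * C * (size (code cg) + 10) ≤ 2 * C * (size (code cf) + size (code cg) + 10) :=
            Nat.mul_le_mul_left _ (by omega)
          omega)
      rw [rg, hdu, snd_node, h1, snd_node]
      cases w with
      | nil => simp at hz2
      | cons c w =>
        simp only [List.head?_cons, Option.some.injEq] at hz2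
        subst hz2
        show decide (bit c ≠ leaf) = c
        cases c <;> simp [bit]
    exact ⟨z', by rw [hrg]; exact RLb_eq.mp hz1.2⟩
  -- the set of answers at the start of the chain is contained in all the others
  set M := 2 ^ (QQ T.p k).eval (inst u a a).length with hM
  have haM : a ≤ M := by
    have h1 : (inst u a a).length ≤ (QQ T.p k).eval (inst u a a).length := by
      rw [QQ_eval]; omega
    have h2 := inst_length u a a
    have h3 : (QQ T.p k).eval (inst u a a).length < M := Nat.lt_two_pow_self
    omega
  have hchain : ∀ b y0, Sol T.R T.p (rf O k u (inst u a a)) y0 →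
      rg O k u (inst u a a) y0 = b → ∀ m, a ≤ m → m ≤ M →
        ∃ y, Sol T.R T.p (rf O k u (inst u a m)) y ∧ rg O k u (inst u a m) y = b := by
    intro b y0 hy0 hb m hm
    induction m, hm using Nat.le_induction with
    | base => intro _; exact ⟨y0, hy0, hb⟩
    | succ m hm ih =>
      intro hmM
      obtain ⟨y, hy1, hy2⟩ := ih (by omega)
      obtain ⟨z, hz⟩ := hrun m hm y hy1
      obtain ⟨b', z', h1, h2⟩ := hz m (List.replicate a true ++ false :: u) a u
        (parse_ones _ _) (parse_ones _ _)
      rw [hy2, List.cons.injEq] at h1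
      obtain ⟨rfl, rfl⟩ := h1
      rcases h2 with ⟨h2, _⟩ | ⟨_, h2, h3⟩
      · omega
      · exact ⟨z, h2, h3.symm⟩
  have hend : ∀ b y0, Sol T.R T.p (rf O k u (inst u a a)) y0 →
      rg O k u (inst u a a) y0 = b → (b = true ↔ ¬ Yes O T.R T.p k u (inst u a a) M) := by
    intro b y0 hy0 hb
    obtain ⟨y, hy1, hy2⟩ := hchain b y0 hy0 hb M haM le_rfl
    obtain ⟨z, hz⟩ := hrun M haM y hy1
    obtain ⟨b', z', h1, h2⟩ := hz M (List.replicate a true ++ false :: u) a u
      (parse_ones _ _) (parse_ones _ _)
    rw [hy2, List.cons.injEq] at h1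
    obtain ⟨rfl, rfl⟩ := h1
    rcases h2 with ⟨_, h2⟩ | ⟨h2, _⟩
    · exact h2
    · exact absurd h2 (lt_irrefl _)
  -- `Yes` is decided correctly at the end of the chain
  have hyes : ∀ y0, Sol T.R T.p (rf O k u (inst u a a)) y0 →
      rg O k u (inst u a a) y0 = true → Yes O T.R T.p k u (inst u a a) M := by
    intro y0 hy0 hb
    refine ⟨sval y0, ?_, ?_, ?_⟩
    · have h1 := sval_lt y0
      have h2 : y0.length + 1 ≤ (QQ T.p k).eval (inst u a a).length := by
        rw [QQ_eval]
        have h3 := rf_length (O := O) k u (inst u a a)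
        have h4 := poly_mono T.p h3
        have h5 := hy0.1
        omega
      have h3 : 2 ^ (y0.length + 1) ≤ M := Nat.pow_le_pow_right (by omega) h2
      omega
    · rw [sc_iter_sval]; exact hy0
    · rw [sc_iter_sval]; exact hb
  obtain ⟨y0, h1, h2⟩ := T.total (rf O k u (inst u a a))
  by_cases hY : Yes O T.R T.p k u (inst u a a) M
  · obtain ⟨i, _, hi1, hi2⟩ := hY
    have h3 := hyes _ hi1 hi2
    exact (hend true _ hi1 hi2).mp rfl h3
  · have h3 : rg O k u (inst u a a) y0 = false := by
      by_contra h4
      rw [Bool.not_eq_false] at h4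
      exact hY (hyes y0 ⟨h1, h2⟩ h4)
    have h4 := (hend false y0 ⟨h1, h2⟩ h3).mpr hY
    cases h4

end Lazy

end Pool.Agent.H88.RO
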