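import Pool.Agent.H88.Lazy.Enum
import Pool.Agent.H88.RO.Relation

set_option autoImplicit false

/-! # The lazily diagonalising search problem and its polynomial time program -/

namespace Pool.Agent.H88.RO

open Tr

variable {O : List Bool → Bool}

namespace Lazy

/-- the instances of the diagonalising problem: `1^m 0 1^a 0 u` -/
def inst (u : List Bool) (a m : ℕ) : List Bool :=
  List.replicate m true ++ false :: (List.replicate a true ++ false :: u)

/-- the string computed by the first half of the reduction coded by `u` at `x`, with a clock -/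
def rf (O : List Bool → Bool) (k : ℕ) (u x : List Bool) : List Bool :=
  dec (snd (U O (fst (decode u)) (enc x) ((x.length + 1) ^ (k + 1))))

/-- the first bit of the string computed by the second half of the reduction coded by `u` at
`x` and `y`, with a clock -/
def rg (O : List Bool → Bool) (k : ℕ) (u x y : List Bool) : Bool :=
  decide (fst (snd (U O (snd (decode u)) (node (enc x) (enc y))
    ((x.length + y.length + 1) ^ (k + 1)))) ≠ leaf)

/-- solutions of the given problem -/
def Sol (R : List Bool → List Bool → Bool) (p : Polynomial ℕ) (s y : List Bool) : Prop :=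
  y.length ≤ p.eval s.length ∧ R s y = true

/-- there is a solution among the first `n` strings on which the second half of the reduction
answers `true` -/
def Yes (O : List Bool → Bool) (R : List Bool → List Bool → Bool) (p : Polynomial ℕ) (k : ℕ)
    (u x : List Bool) (n : ℕ) : Prop :=
  ∃ i < n, Sol R p (rf O k u x) (sc^[i] []) ∧ rg O k u x (sc^[i] []) = true

/-- the relation of the diagonalising problem -/
def RL (O : List Bool → Bool) (R : List Bool → List Bool → Bool) (p Q : Polynomial ℕ) (k : ℕ)
    (x y : List Bool) : Prop :=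
  ∀ m v a u, parse x = some (m, v) → parse v = some (a, u) → ∃ b z, y = b :: z ∧
    ((2 ^ Q.eval (inst u a a).length ≤ m ∧ (b = true ↔ ¬ Yes O R p k u (inst u a a) m)) ∨
      (m < 2 ^ Q.eval (inst u a a).length ∧ Sol R p (rf O k u (inst u a (m + 1))) z ∧
        b = rg O k u (inst u a (m + 1)) z))

/-! ### programs -/

/-- program for `inst` -/
def instT (u a m : Tr) : Tr := onesPre m (node leaf (onesPre a (node leaf u)))

theorem instT_eq (u : List Bool) (a m : Tr) : instT (enc u) a m = enc (inst u (len a) (len m)) := by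
  have e1 : ∀ v : List Bool, node leaf (enc v) = enc (false :: v) := fun v => rfl
  rw [instT, e1, onesPre_enc, e1, onesPre_enc, inst]

theorem FP_instT {F G H : Tr → Tr} (hF : FP O F) (hG : FP O G) (hH : FP O H) :
    FP O (fun v => instT (F v) (G v) (H v)) :=
  FP.onesPre' hH (FP.node' FP.leaf' (FP.onesPre' hG (FP.node' FP.leaf' hF)))

/-- program for `rf` -/
def rfT (O : List Bool → Bool) (k : ℕ) (u x : Tr) : Tr :=
  snd (U O (fst (decodeT u)) x (len (powU (k + 1) (node leaf x))))

theorem rfT_eq (k : ℕ) (u x : List Bool) : dec (rfT O k (enc u) (enc x)) = rf O k u x := by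
  rw [rfT, rf, decodeT_enc, powU_eq, len_num]
  simp only [len, len_enc]

theorem FP_rfT (k : ℕ) {F G : Tr → Tr} (hF : FP O F) (hG : FP O G) :
    FP O (fun v => rfT O k (F v) (G v)) :=
  FP.snd' (FP.U' (FP.fst' (FP.decodeT' hF)) hG (FP.powU' _ (FP.node' FP.leaf' hG)))

/-- program for `rg` -/
def rgT (O : List Bool → Bool) (k : ℕ) (u x y : Tr) : Tr :=
  fst (snd (U O (snd (decodeT u)) (node x y) (len (powU (k + 1) (node leaf (addU x y))))))

theorem len_addU (a b : Tr) : len (addU a b) = len a + len b := by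
  have h : ∀ n b, len ((fun s => node leaf s)^[n] b) = n + len b := by
    intro n
    induction n with
    | zero => intro b; simp
    | succ n ih => intro b; rw [Function.iterate_succ_apply, ih]; simp only [len]; omega
  exact h _ _

theorem rgT_eq (k : ℕ) (u x y : List Bool) :
    rgT O k (enc u) (enc x) (enc y) ≠ leaf ↔ rg O k u x y = true := by
  rw [rgT, rg, decodeT_enc, powU_eq, len_num]
  simp only [len, len_addU, len_enc, decide_eq_true_eq]

theorem FP_rgT (k : ℕ) {F G H : Tr → Tr} (hF : FP O F) (hG : FP O G) (hH : FP O H) :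
    FP O (fun v => rgT O k (F v) (G v) (H v)) :=
  FP.fst' (FP.snd' (FP.U' (FP.snd' (FP.decodeT' hF)) (FP.node' hG hH)
    (FP.powU' _ (FP.node' FP.leaf' (FP.addU' hG hH)))))

/-- program for `Sol` -/
def solT (R : List Bool → List Bool → Bool) (P : Tr → Tr) (s y : Tr) : Tr :=
  cs (dropU (P s) y) (bit (R (dec s) (dec y))) leaf

theorem bit_ne_leaf {b : Bool} : bit b ≠ leaf ↔ b = true := by cases b <;> simp [bit]

theorem solT_eq {R : List Bool → List Bool → Bool} {P : Tr → Tr} {p : Polynomial ℕ}
    (hP : ∀ v, P v = num (p.eval (len v))) (s : Tr) (y : List Bool) :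
    solT R P s (enc y) ≠ leaf ↔ Sol R p (dec s) y := by
  unfold solT Sol
  rw [length_dec, dec_enc]
  by_cases h : y.length ≤ p.eval (len s)
  · rw [cs_pos _ _ (by rw [dropU_eq_leaf, hP, len_num, len_enc]; exact h), bit_ne_leaf]
    simp [h]
  · rw [cs_neg _ _ (by rw [ne_eq, dropU_eq_leaf, hP, len_num, len_enc]; exact h)]
    simp [h]

theorem FP_solT {R : List Bool → List Bool → Bool} (hR : PolyTimeRel O R) {P : Tr → Tr}
    (hP : ∀ F, FP O F → FP O (fun v => P (F v))) {F G : Tr → Tr} (hF : FP O F) (hG : FP O G) :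
    FP O (fun v => solT R P (F v) (G v)) :=
  FP.cs' (FP.dropU' (hP _ hF) hG) (FP.rel hR hF hG) FP.leaf'

/-- the test of the exhaustive search, on `node (node u x) z` -/
def tstT (O : List Bool → Bool) (R : List Bool → List Bool → Bool) (P : Tr → Tr) (k : ℕ)
    (v : Tr) : Tr :=
  cs (solT R P (rfT O k (fst (fst v)) (snd (fst v))) (snd v)) leaf
    (rgT O k (fst (fst v)) (snd (fst v)) (snd v))

theorem tstT_eq {R : List Bool → List Bool → Bool} {P : Tr → Tr} {p : Polynomial ℕ}
    (hP : ∀ v, P v = num (p.eval (len v))) (k : ℕ) (u x z : List Bool) :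
    tstT O R P k (node (node (enc u) (enc x)) (enc z)) ≠ leaf ↔
      Sol R p (rf O k u x) z ∧ rg O k u x z = true := by
  unfold tstT
  simp only [fst_node, snd_node]
  rw [← rgT_eq, ← rfT_eq, ← solT_eq hP]
  by_cases h : solT R P (rfT O k (enc u) (enc x)) (enc z) = leaf
  · rw [cs_pos _ _ h]; simp [h]
  · rw [cs_neg _ _ h]; simp [h]

theorem FP_tstT {R : List Bool → List Bool → Bool} (hR : PolyTimeRel O R) {P : Tr → Tr}
    (hP : ∀ F, FP O F → FP O (fun v => P (F v))) (k : ℕ) : FP O (tstT O R P k) := by
  have h1 : FP O (fun v => fst (fst v)) := FP.fst' (FP.fst' FP.id')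
  have h2 : FP O (fun v => snd (fst v)) := FP.snd' (FP.fst' FP.id')
  have h3 : FP O (fun v => snd v) := FP.snd' FP.id'
  exact FP.cs' (FP_solT hR hP (FP_rfT k h1 h2) h3) FP.leaf' (FP_rgT k h1 h2 h3)

/-- equality of truth values -/
def eqb (p q : Tr) : Tr := cs p (cs q tt leaf) (cs q leaf tt)

theorem eqb_spec (p q : Tr) : eqb p q ≠ leaf ↔ (p ≠ leaf ↔ q ≠ leaf) := by
  unfold eqb
  by_cases hp : p = leaf
  · rw [cs_pos _ _ hp]
    by_cases hq : q = leaf
    · rw [cs_pos _ _ hq]; simp [hp, hq]
    · rw [cs_neg _ _ hq]; simp [hp, hq]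
  · rw [cs_neg _ _ hp]
    by_cases hq : q = leaf
    · rw [cs_pos _ _ hq]; simp [hp, hq]
    · rw [cs_neg _ _ hq]; simp [hp, hq]

theorem FP_eqb {F G : Tr → Tr} (hF : FP O F) (hG : FP O G) : FP O (fun v => eqb (F v) (G v)) :=
  FP.cs' hF (FP.cs' hG (FP.const' _) FP.leaf') (FP.cs' hG FP.leaf' (FP.const' _))

/-- the endpoint test -/
def endT (O : List Bool → Bool) (R : List Bool → List Bool → Bool) (P : Tr → Tr) (k : ℕ)
    (u a m y : Tr) : Tr :=
  eqb (fst y) (cs (srch (tstT O R P k) m (node u (instT u a a))) tt leaf)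

/-- the chain test -/
def chT (O : List Bool → Bool) (R : List Bool → List Bool → Bool) (P : Tr → Tr) (k : ℕ)
    (u a m y : Tr) : Tr :=
  cs (solT R P (rfT O k u (instT u a (node leaf m))) (snd y)) leaf
    (eqb (fst y) (rgT O k u (instT u a (node leaf m)) (snd y)))

/-- the core of the test -/
def coreT (O : List Bool → Bool) (R : List Bool → List Bool → Bool) (P PQ : Tr → Tr) (k : ℕ)
    (u a m y : Tr) : Tr :=
  cs y leaf (cs (dropU m (pow2cap (PQ (instT u a a)) m)) (endT O R P k u a m y)
    (chT O R P k u a m y))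

/-- the program of the relation -/
def relT (O : List Bool → Bool) (R : List Bool → List Bool → Bool) (P PQ : Tr → Tr) (k : ℕ)
    (x y : Tr) : Tr :=
  cs (snd (snd (parseT x))) tt
    (cs (snd (snd (parseT (fst (snd (parseT x)))))) tt
      (coreT O R P PQ k (fst (snd (parseT (fst (snd (parseT x))))))
        (fst (parseT (fst (snd (parseT x))))) (fst (parseT x)) y))

theorem FP_relT {R : List Bool → List Bool → Bool} (hR : PolyTimeRel O R) {P PQ : Tr → Tr}
    (hP : ∀ F, FP O F → FP O (fun v => P (F v))) (hQ : ∀ F, FP O F → FP O (fun v => PQ (F v)))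
    (k : ℕ) {F G : Tr → Tr} (hF : FP O F) (hG : FP O G) :
    FP O (fun v => relT O R P PQ k (F v) (G v)) := by
  have hp : FP O (fun v => parseT (F v)) := FP.parseT' hF
  have hq : FP O (fun v => parseT (fst (snd (parseT (F v))))) := FP.parseT' (FP.fst' (FP.snd' hp))
  have hm : FP O (fun v => fst (parseT (F v))) := FP.fst' hp
  have ha : FP O (fun v => fst (parseT (fst (snd (parseT (F v)))))) := FP.fst' hq
  have hu : FP O (fun v => fst (snd (parseT (fst (snd (parseT (F v))))))) := FP.fst' (FP.snd' hq)
  have hi := FP_instT hu ha ha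
  have hi' := FP_instT hu ha (FP.node' FP.leaf' hm)
  unfold relT coreT endT chT
  refine FP.cs' (FP.snd' (FP.snd' hp)) (FP.const' _) (FP.cs' (FP.snd' (FP.snd' hq)) (FP.const' _)
    (FP.cs' hG FP.leaf' (FP.cs' (FP.dropU' hm (FP.pow2cap' (hQ _ hi) hm)) ?_ ?_)))
  · exact FP_eqb (FP.fst' hG) (FP.cs' (FP.srch' (FP_tstT hR hP k) hm (FP.node' hu hi))
      (FP.const' _) FP.leaf')
  · exact FP.cs' (FP_solT hR hP (FP_rfT k hu hi') (FP.snd' hG)) FP.leaf'
      (FP_eqb (FP.fst' hG) (FP_rgT k hu hi' (FP.snd' hG)))

theorem coreT_spec {R : List Bool → List Bool → Bool} {P PQ : Tr → Tr} {p Q : Polynomial ℕ}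
    (hP : ∀ v, P v = num (p.eval (len v))) (hQ : ∀ v, PQ v = num (Q.eval (len v))) (k a m : ℕ)
    (u y : List Bool) :
    coreT O R P PQ k (enc u) (num a) (num m) (enc y) ≠ leaf ↔ ∃ b z, y = b :: z ∧
    ((2 ^ Q.eval (inst u a a).length ≤ m ∧ (b = true ↔ ¬ Yes O R p k u (inst u a a) m)) ∨
      (m < 2 ^ Q.eval (inst u a a).length ∧ Sol R p (rf O k u (inst u a (m + 1))) z ∧
        b = rg O k u (inst u a (m + 1)) z)) := by
  unfold coreT
  cases y with
  | nil => simp [enc]
  | cons b z =>
    rw [cs_neg _ _ (by simp [enc])]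
    have hbz : ∀ C : Bool → List Bool → Prop,
        (∃ b' z', b :: z = b' :: z' ∧ C b' z') ↔ C b z := by
      intro C
      constructor
      · rintro ⟨b', z', h, hC⟩
        rw [List.cons.injEq] at h
        rw [h.1, h.2]; exact hC
      · intro h; exact ⟨b, z, rfl, h⟩
    rw [hbz (fun b z => (2 ^ Q.eval (inst u a a).length ≤ m ∧
      (b = true ↔ ¬ Yes O R p k u (inst u a a) m)) ∨
      (m < 2 ^ Q.eval (inst u a a).length ∧ Sol R p (rf O k u (inst u a (m + 1))) z ∧
        b = rg O k u (inst u a (m + 1)) z))]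
    have hfst : fst (enc (b :: z)) ≠ leaf ↔ b = true := by
      show bit b ≠ leaf ↔ _
      exact bit_ne_leaf
    have hthr : dropU (num m) (pow2cap (PQ (instT (enc u) (num a) (num a))) (num m)) = leaf ↔
        2 ^ Q.eval (inst u a a).length ≤ m := by
      rw [dropU_eq_leaf, pow2cap_eq, hQ, instT_eq]
      simp only [len_num, len_enc]
      omega
    by_cases h : 2 ^ Q.eval (inst u a a).length ≤ m
    · rw [cs_pos _ _ (hthr.mpr h), endT, eqb_spec, hfst]
      have h1 : (cs (srch (tstT O R P k) (num m) (node (enc u) (instT (enc u) (num a) (num a))))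
          tt leaf ≠ leaf) ↔ ¬ Yes O R p k u (inst u a a) m := by
        have h2 : srch (tstT O R P k) (num m) (node (enc u) (instT (enc u) (num a) (num a)))
            ≠ leaf ↔ Yes O R p k u (inst u a a) m := by
          rw [srch_spec, len_num, instT_eq]
          simp only [len_num]
          unfold Yes
          constructor
          · rintro ⟨i, hi, h3⟩
            exact ⟨i, hi, (tstT_eq hP k u _ _).mp h3⟩
          · rintro ⟨i, hi, h3⟩
            exact ⟨i, hi, (tstT_eq hP k u _ _).mpr h3⟩
        rw [← h2]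
        by_cases h3 : srch (tstT O R P k) (num m)
            (node (enc u) (instT (enc u) (num a) (num a))) = leaf
        · rw [cs_pos _ _ h3]; simp [h3]
        · rw [cs_neg _ _ h3]; simp [h3]
      rw [h1]
      constructor
      · intro h4; exact Or.inl ⟨h, h4⟩
      · rintro (⟨_, h4⟩ | ⟨h4, _⟩)
        · exact h4
        · omega
    · rw [cs_neg _ _ (fun h' => h (hthr.mp h')), chT]
      have e1 : instT (enc u) (num a) (node leaf (num m)) = enc (inst u a (m + 1)) := by
        rw [instT_eq]
        simp only [len, len_num]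
      have e2 : snd (enc (b :: z)) = enc z := rfl
      rw [e1, e2]
      have h2 := solT_eq (R := R) hP (rfT O k (enc u) (enc (inst u a (m + 1)))) z
      rw [rfT_eq] at h2
      have h3 := eqb_spec (fst (enc (b :: z))) (rgT O k (enc u) (enc (inst u a (m + 1))) (enc z))
      rw [hfst, rgT_eq] at h3
      constructor
      · intro h4
        refine Or.inr ⟨by omega, ?_⟩
        by_cases h5 : solT R P (rfT O k (enc u) (enc (inst u a (m + 1)))) (enc z) = leaf
        · rw [cs_pos _ _ h5] at h4
          exact absurd rfl h4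
        · rw [cs_neg _ _ h5] at h4
          refine ⟨h2.mp h5, ?_⟩
          rw [Bool.eq_iff_iff]
          exact h3.mp h4
      · rintro (⟨h4, _⟩ | ⟨_, h4, h5⟩)
        · exact absurd h4 h
        · rw [cs_neg _ _ (h2.mpr h4)]
          rw [h3, h5]

theorem relT_spec {R : List Bool → List Bool → Bool} {P PQ : Tr → Tr} {p Q : Polynomial ℕ}
    (hP : ∀ v, P v = num (p.eval (len v))) (hQ : ∀ v, PQ v = num (Q.eval (len v))) (k : ℕ)
    (x y : List Bool) : relT O R P PQ k (enc x) (enc y) ≠ leaf ↔ RL O R p Q k x y := by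
  unfold relT RL
  rw [parseT_enc]
  rcases hx : parse x with _ | ⟨m, v⟩
  · simp
  · simp only [fst_node, snd_node, cs_tt]
    rw [parseT_enc]
    rcases hv : parse v with _ | ⟨a, u⟩
    · simp only [snd_node, cs_leaf, ne_eq, tt_ne, not_false_eq_true, true_iff]
      intro m' v' a' u' h1 h2
      rw [Option.some.injEq, Prod.mk.injEq] at h1
      rw [← h1.2, hv] at h2
      cases h2
    · simp only [fst_node, snd_node, cs_tt]
      rw [coreT_spec hP hQ]
      constructor
      · intro h m' v' a' u' h1 h2
        rw [Option.some.injEq, Prod.mk.injEq] at h1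
        rw [← h1.2, hv, Option.some.injEq, Prod.mk.injEq] at h2
        obtain ⟨rfl, rfl⟩ := h1
        obtain ⟨rfl, rfl⟩ := h2
        exact h
      · intro h
        exact h m v a u rfl hv

/-- the Boolean form of the relation -/
noncomputable def RLb (O : List Bool → Bool) (R : List Bool → List Bool → Bool)
    (p Q : Polynomial ℕ) (k : ℕ) (x y : List Bool) : Bool :=
  @decide (RL O R p Q k x y) (Classical.propDecidable _)

theorem RLb_eq {R : List Bool → List Bool → Bool} {p Q : Polynomial ℕ} {k : ℕ}
    {x y : List Bool} : RLb O R p Q k x y = true ↔ RL O R p Q k x y := by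
  unfold RLb
  exact @decide_eq_true_iff _ (Classical.propDecidable _)

theorem polyTime_RLb {R : List Bool → List Bool → Bool} (hR : PolyTimeRel O R)
    (p Q : Polynomial ℕ) (k : ℕ) : PolyTimeRel O (RLb O R p Q k) := by
  obtain ⟨P, hP1, hP2⟩ := exists_polyT p
  obtain ⟨PQ, hQ1, hQ2⟩ := exists_polyT Q
  have h1 : FP O (fun v => cs (relT O R P PQ k (fst v) (snd v)) leaf tt) :=
    FP.cs' (FP_relT hR (hP2 O) (hQ2 O) k (FP.fst' FP.id') (FP.snd' FP.id')) FP.leaf' (FP.const' _)
  obtain ⟨c, q, hc⟩ := h1
  refine ⟨c, q.comp (4 * Polynomial.X + 3), fun x y => ?_⟩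
  obtain ⟨t, ht, he⟩ := hc (node (enc x) (enc y))
  refine ⟨t, ht.trans ?_, ?_⟩
  · simp only [Polynomial.eval_comp, Polynomial.eval_add, Polynomial.eval_mul,
      Polynomial.eval_ofNat, Polynomial.eval_X]
    apply poly_mono
    have h1 := size_enc_le x
    have h2 := size_enc_le y
    simp only [size]
    omega
  · simp only [fst_node, snd_node] at he
    have : cs (relT O R P PQ k (enc x) (enc y)) leaf tt = bit (RLb O R p Q k x y) := by
      by_cases h : RL O R p Q k x y
      · rw [cs_neg _ _ ((relT_spec hP1 hQ1 k x y).mpr h), RLb_eq.mpr h]; rfl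
      · rw [cs_pos _ _ (by
          by_contra hcon
          exact h ((relT_spec hP1 hQ1 k x y).mp hcon))]
        have : RLb O R p Q k x y = false := by
          rw [← Bool.not_eq_true, RLb_eq]; exact h
        rw [this]; rfl
    rw [this] at he
    exact he

end Lazy

end Pool.Agent.H88.RO
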